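import Pool.Agent.Lib_helper56.HZ.Main

/-! A necessary condition for the finiteness of the universal regular polyhedra
`{p,q | h_2,...,h_k}_{r_1,...,r_k}`. -/

namespace Pool.Agent.Results.MP_7b55f3_co.FiniteBound

open Pool.Agent.HZ

/-- If the group `Γ{p,q | h_2,...,h_k}_{r_1,...,r_k}` is finite and the prescribed lengths are the
true orders (as they are whenever the universal polyhedron exists), then
`1/p + 1/q + ∑ 1/h_j + ∑ 1/r_j ≥ 1/2 + 2/|Γ|`. -/
theorem result (T : Data) (hq : 2 ≤ T.q) (hT : TrueOrders T (gen T)) (hfin : Finite (Gam T)) :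
    1 / 2 + 2 / (Nat.card (Gam T) : ℚ) ≤ lengthSum T :=
  finite_bound T hq hT hfin

end Pool.Agent.Results.MP_7b55f3_co.FiniteBound
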