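import Pool.Agent.Lib_helper98.WM.Poly

/-! The universal regular polyhedra `{p,q | h_2,...,h_k}_{r_1,...,r_k}` with long prescribed
lengths, for every `q` and every pattern of prescriptions. -/

namespace Pool.Agent.Results.MP_7b55f3_co.LongLengths

open Pool.Agent.HZ Pool.Agent.WM

/-- Let `q ≥ 4`, let all prescribed lengths be at least 6, those at the `j < q / 2` where both
lengths are prescribed at least 11, and let the two lengths at `q / 2` (if both are prescribed)
have greatest common divisor at least 6. Then `Γ` is finite exactly if both lengths at `q / 2` are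
prescribed and odd; the universal polyhedron exists exactly if the lengths at `q / 2` satisfy
`MidOK`, and then it is infinite and every length that is not prescribed is infinite. -/
theorem result (T : Data) (hq : 4 ≤ T.q) (hT : Long T) :
    (Finite (Gam T) ↔
      ∃ j m n, 2 * j = T.q ∧ T.h j = some m ∧ T.r j = some n ∧ Odd m ∧ Odd n) ∧
    ((IsRegularPolyhedron (gen T) ∧ TrueOrders T (gen T)) ↔ MidOK T) ∧
    (MidOK T → Infinite (Gam T) ∧ ∀ j, 1 ≤ j → 2 * j ≤ T.q →
      (holeLen T j = none → (2 * j = T.q → T.r j = none) → orderOf (hole (gen T) j) = 0) ∧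
      (T.r j = none → (2 * j = T.q → T.h j = none) → orderOf (zigzag (gen T) j) = 0)) :=
  main T hq hT

end Pool.Agent.Results.MP_7b55f3_co.LongLengths
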