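import Pool.Agent.Lib_helper56.HZ.Reduced

/-! Finite regular polyhedra that are not determined by their hole and zigzag lengths. -/

namespace Pool.Agent.Results.MP_7b55f3_co.NotDetermined

open Pool.Agent.HZ

/-- Let `P` be a finite regular polyhedron with small sum of the reciprocals of its lengths. Then
the universal polyhedron with these lengths exists and is infinite, and there are arbitrarily
large finite regular polyhedra with exactly the same lengths, all covering `P`. -/
theorem result {G : Type} [Group G] [Finite G] {x : Fin 3 → G}
    (hx : IsRegularPolyhedron x) (hS : reducedSum x ≤ 1 / 2) :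
    (IsRegularPolyhedron (gen (dataOf x)) ∧ SameLengths x (gen (dataOf x)) ∧
      Infinite (Gam (dataOf x))) ∧
    ∀ N : ℕ, ∃ (G' : Type) (_ : Group G') (x' : Fin 3 → G'), Finite G' ∧ N < Nat.card G' ∧
      IsRegularPolyhedron x' ∧ SameLengths x x' ∧ ∃ π : G' →* G, ∀ i, π (x' i) = x i :=
  not_determined hx hS

end Pool.Agent.Results.MP_7b55f3_co.NotDetermined
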