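import Pool.Agent.Lib_helper56.HZ.TwoPart

/-! A criterion for the groups `Γ{p,q | h_2,...,h_k}_{r_1,...,r_k}` to be infinite. -/

namespace Pool.Agent.Results.MP_7b55f3_co.PrimeTower

open Pool.Agent.HZ

/-- A finite image of `Γ` and a prime `l` such that the reciprocals of the largest orders that the
words can have in `l`-power extensions of the image add up to at most `1/2` make `Γ` infinite;
in particular `Γ` is infinite if the reciprocals of the 2-parts of all prescribed lengths add up
to at most `1/2`. -/
theorem result :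
    (∀ T : Data, Valid T → ∀ (Q : Type) [Group Q] [Finite Q] (φ : Gam T →* Q),
      (∀ i, φ (gen T i) ≠ 1) → φ (gen T 0) * φ (gen T 2) ≠ 1 → ∀ l : ℕ, l.Prime →
      towerSum l T (fun i => φ (gen T i)) ≤ 1 / 2 → Infinite (Gam T)) ∧
    (∀ T : Data, Valid T → twoSum T ≤ 1 / 2 → Infinite (Gam T)) :=
  ⟨fun T hT Q _ _ φ h1 h2 l hl hS => tower T hT φ h1 h2 l hl hS,
    fun T hT hS => two_part T hT hS⟩

end Pool.Agent.Results.MP_7b55f3_co.PrimeTower
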